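import Pool.Agent.TH519.GL.U4

/-!
# Differentiating quadratic relations between combinations
-/

set_option autoImplicit false

namespace Pool.Agent.TH519.FE

open Filter Pool.Agent.TH519.GL
open Pool.Agent.H301R2.SSE (QB mem_QB)

variable {N M : ℕ} (𝒰 : Ultrafilter (Fin N → QB))

theorem gh_cmb' (l' : Fin M → ℂ) (a : (Fin N → QB) → (Fin M → QB)) :
    gh 𝒰 ℂ (fun b => cmb l' (a b)) =
      ∑ m, gh 𝒰 ℂ (up fun b => a b m) * gh 𝒰 ℂ (fun _ => l' m) := by
  simp only [← map_mul, ← map_sum]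
  congr 1
  funext b
  rw [Finset.sum_apply]
  rfl

/-- the partial derivatives act on combinations -/
theorem exists_ops (hgen : ∀ Δ : MvPolynomial (Fin N) QB, Δ ≠ 0 →
      ∀ᶠ b in (𝒰 : Filter (Fin N → QB)), MvPolynomial.eval b Δ ≠ 0)
    (l : Fin N → ℂ) (l' : Fin M → ℂ) (k : Fin N) :
    ∃ (D : Derivation ℤ (Germ (𝒰 : Filter (Fin N → QB)) ℂ) (Germ (𝒰 : Filter (Fin N → QB)) ℂ))
      (δ : ((Fin N → QB) → (Fin M → QB)) → ((Fin N → QB) → (Fin M → QB))),
      D (gh 𝒰 ℂ (fun b => cmb l b)) = gh 𝒰 ℂ (fun _ => l k) ∧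
      ∀ a, D (gh 𝒰 ℂ (fun b => cmb l' (a b))) = gh 𝒰 ℂ (fun b => cmb l' (δ a b)) := by
  obtain ⟨D, hD1, hD2, hD3⟩ := exists_ultra_der 𝒰 hgen k
  choose g hg using hD1
  refine ⟨D, fun a b m => g (fun b => a b m) b, ?_, ?_⟩
  · rw [gh_cmb' 𝒰 l (fun b => b), map_sum, Finset.sum_eq_single k]
    · rw [D.leibniz, hD2, smul_zero, zero_add, hD3, if_pos rfl, smul_eq_mul, mul_one]
    · intro m _ hm
      rw [D.leibniz, hD2, smul_zero, zero_add, hD3, if_neg hm, smul_zero]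
    · intro h; exact absurd (Finset.mem_univ k) h
  · intro a
    rw [gh_cmb', gh_cmb', map_sum]
    refine Finset.sum_congr rfl fun m _ => ?_
    rw [D.leibniz, hD2, smul_zero, zero_add, hg, smul_eq_mul, mul_comm]

/-- **Differentiation of quadratic relations.** -/
theorem quad_diff (hgen : ∀ Δ : MvPolynomial (Fin N) QB, Δ ≠ 0 →
      ∀ᶠ b in (𝒰 : Filter (Fin N → QB)), MvPolynomial.eval b Δ ≠ 0)
    (l : Fin N → ℂ) (l' : Fin M → ℂ) :
    ∃ δ : Fin N → ((Fin N → QB) → (Fin M → QB)) → ((Fin N → QB) → (Fin M → QB)),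
      (∀ e a c : (Fin N → QB) → (Fin M → QB), (∀ᶠ b in (𝒰 : Filter (Fin N → QB)),
          cmb l b * cmb l' (e b) = cmb l' (a b) * cmb l' (c b)) →
        ∀ᶠ b in (𝒰 : Filter (Fin N → QB)), ∀ k,
          l k * cmb l' (e b) + cmb l b * cmb l' (δ k e b) =
            cmb l' (δ k a b) * cmb l' (c b) + cmb l' (a b) * cmb l' (δ k c b)) ∧
      (∀ a c : (Fin N → QB) → (Fin M → QB), (∀ᶠ b in (𝒰 : Filter (Fin N → QB)),
          cmb l b * cmb l b = cmb l' (a b) * cmb l' (c b)) →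
        ∀ᶠ b in (𝒰 : Filter (Fin N → QB)), ∀ k,
          l k * cmb l b + cmb l b * l k =
            cmb l' (δ k a b) * cmb l' (c b) + cmb l' (a b) * cmb l' (δ k c b)) := by
  choose D δ hD hδ using fun k => exists_ops 𝒰 hgen l l' k
  refine ⟨δ, ?_, ?_⟩
  · intro e a c h
    rw [Filter.eventually_all]
    intro k
    have e1 : gh 𝒰 ℂ (fun b => cmb l b) * gh 𝒰 ℂ (fun b => cmb l' (e b)) =
        gh 𝒰 ℂ (fun b => cmb l' (a b)) * gh 𝒰 ℂ (fun b => cmb l' (c b)) := by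
      rw [← map_mul, ← map_mul, gh_eq]
      exact h
    have e2 := congrArg (D k) e1
    rw [(D k).leibniz, (D k).leibniz, hD, hδ, hδ, hδ] at e2
    simp only [smul_eq_mul, ← map_mul, ← map_add] at e2
    rw [gh_eq] at e2
    refine e2.mono fun b hb => ?_
    simp only [Pi.add_apply, Pi.mul_apply] at hb
    linear_combination hb
  · intro a c h
    rw [Filter.eventually_all]
    intro k
    have e1 : gh 𝒰 ℂ (fun b => cmb l b) * gh 𝒰 ℂ (fun b => cmb l b) =
        gh 𝒰 ℂ (fun b => cmb l' (a b)) * gh 𝒰 ℂ (fun b => cmb l' (c b)) := by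
      rw [← map_mul, ← map_mul, gh_eq]
      exact h
    have e2 := congrArg (D k) e1
    rw [(D k).leibniz, (D k).leibniz, hD, hδ, hδ] at e2
    simp only [smul_eq_mul, ← map_mul, ← map_add] at e2
    rw [gh_eq] at e2
    refine e2.mono fun b hb => ?_
    simp only [Pi.add_apply, Pi.mul_apply] at hb
    linear_combination hb

end Pool.Agent.TH519.FE
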