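import Pool.Agent.TH519.FE.Diff
import Pool.Agent.W254.HP.Rel

/-!
# Rank one matrices of linear forms in logarithms with one given entry
-/

set_option autoImplicit false

namespace Pool.Agent.TH519.FE

open Module Pool.Agent.TH519.GL
open Pool.Agent.H301R2.SSE (QB mem_QB Lt Lt_log)
open Pool.Agent.W254.HP (hyperplane hyperplane')

theorem pow3_indep {t : ℂ} (ht : t ∉ QB) (a b c : QB)
    (h : (a : ℂ) + b * t + c * (t * t) = 0) : a = 0 ∧ b = 0 ∧ c = 0 := by
  have ht' : Transcendental QB t := tr_iff.mpr ht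
  have h1 := transcendental_iff.mp ht' (Polynomial.C a + Polynomial.C b * Polynomial.X +
    Polynomial.C c * Polynomial.X ^ 2) (by
      rw [map_add, map_add, map_mul, map_mul, map_pow, Polynomial.aeval_C, Polynomial.aeval_C,
        Polynomial.aeval_C, Polynomial.aeval_X, pow_two]
      exact h)
  refine ⟨?_, ?_, ?_⟩
  · have := congrArg (fun p => Polynomial.coeff p 0) h1
    simpa using this
  · have := congrArg (fun p => Polynomial.coeff p 1) h1
    simpa [Polynomial.coeff_X, Polynomial.coeff_C] using this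
  · have := congrArg (fun p => Polynomial.coeff p 2) h1
    simpa [Polynomial.coeff_X, Polynomial.coeff_C] using this

theorem li3_iff (x y z : ℂ) : LinearIndependent QB ![x, y, z] ↔
    ∀ a b c : QB, (a : ℂ) * x + b * y + c * z = 0 → a = 0 ∧ b = 0 ∧ c = 0 := by
  rw [Fintype.linearIndependent_iff]
  constructor
  · intro h a b c habc
    have h1 := h ![a, b, c] (by
      rw [Fin.sum_univ_three]
      simp only [Matrix.cons_val_zero, Matrix.cons_val_one, Matrix.cons_val_two,
        Matrix.head_cons, Matrix.tail_cons, Algebra.smul_def]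
      exact habc)
    exact ⟨h1 0, h1 1, h1 2⟩
  · intro h g hg
    rw [Fin.sum_univ_three] at hg
    simp only [Matrix.cons_val_zero, Matrix.cons_val_one, Matrix.cons_val_two,
        Matrix.head_cons, Matrix.tail_cons, Algebra.smul_def] at hg
    obtain ⟨h1, h2, h3⟩ := h (g 0) (g 1) (g 2) hg
    intro i
    fin_cases i
    · exact h1
    · exact h2
    · exact h3

theorem li4_iff (x y z w : ℂ) : LinearIndependent QB ![x, y, z, w] ↔
    ∀ a b c d : QB, (a : ℂ) * x + b * y + c * z + d * w = 0 →
      a = 0 ∧ b = 0 ∧ c = 0 ∧ d = 0 := by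
  rw [Fintype.linearIndependent_iff]
  constructor
  · intro h a b c d habc
    have h1 := h ![a, b, c, d] (by
      rw [Fin.sum_univ_four]
      simp only [Matrix.cons_val_zero, Matrix.cons_val_one, Matrix.cons_val_two,
        Matrix.cons_val_three, Matrix.head_cons, Matrix.tail_cons, Algebra.smul_def]
      exact habc)
    exact ⟨h1 0, h1 1, h1 2, h1 3⟩
  · intro h g hg
    rw [Fin.sum_univ_four] at hg
    simp only [Matrix.cons_val_zero, Matrix.cons_val_one, Matrix.cons_val_two,
        Matrix.cons_val_three, Matrix.head_cons, Matrix.tail_cons, Algebra.smul_def] at hg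
    obtain ⟨h1, h2, h3, h4⟩ := h (g 0) (g 1) (g 2) (g 3) hg
    intro i
    fin_cases i
    · exact h1
    · exact h2
    · exact h3
    · exact h4

/-- classification of the rank one matrices with a given entry -/
theorem classify (W : Submodule QB ℂ) (x y z w : ℂ) (hx0 : x ≠ 0) (hx : x ∈ W) (hy : y ∈ W)
    (hz : z ∈ W) (hw : w ∈ W) (h : x * z = y * w) (h1 : ∀ s : QB, y ≠ (s : ℂ) * x)
    (h2 : ∀ s : QB, w ≠ (s : ℂ) * x) :
    LinearIndependent QB ![x, y, w, z] ∨
    (∃ v ∈ W, ∃ u ∈ W, x * u = v * v ∧ ∀ s : QB, v ≠ (s : ℂ) * x) ∨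
    (∃ v ∈ W, ∃ u ∈ W, x * x = v * u ∧ ∀ s : QB, v ≠ (s : ℂ) * x) := by
  have hsm : ∀ (s : QB) (v : ℂ), v ∈ W → (s : ℂ) * v ∈ W := by
    intro s v hv
    have := W.smul_mem s hv
    rwa [Algebra.smul_def] at this
  by_cases h3 : LinearIndependent QB ![x, y, w]
  · by_cases h4 : LinearIndependent QB ![x, y, w, z]
    · exact Or.inl h4
    · right; right
      rw [li3_iff] at h3
      rw [li4_iff] at h4
      push Not at h4
      obtain ⟨a, b, c, d, h5, h6⟩ := h4
      have hd : d ≠ 0 := by
        rintro rfl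
        obtain ⟨e1, e2, e3⟩ := h3 a b c (by
          rw [← h5]
          push_cast
          ring)
        exact h6 e1 e2 e3 rfl
      have hd' : (d : ℂ) ≠ 0 := by exact_mod_cast hd
      -- `(d y + c x) (d w + b x) = (b c - a d) x ^ 2`
      have h7 : ((d : ℂ) * y + c * x) * ((d : ℂ) * w + b * x) = ((b : ℂ) * c - a * d) * (x * x) := by
        linear_combination (-(d : ℂ)) * ((d : ℂ) * h) + (d : ℂ) * x * h5
      have hv : ∀ s : QB, (d : ℂ) * y + c * x ≠ (s : ℂ) * x := by
        intro s hs
        apply h1 ((s - c) / d)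
        push_cast
        field_simp
        linear_combination hs
      have hw' : ∀ s : QB, (d : ℂ) * w + b * x ≠ (s : ℂ) * x := by
        intro s hs
        apply h2 ((s - b) / d)
        push_cast
        field_simp
        linear_combination hs
      have hv0 : (d : ℂ) * y + c * x ≠ 0 := by
        intro h0
        apply hv 0
        rw [h0]
        push_cast
        ring
      have hw0 : (d : ℂ) * w + b * x ≠ 0 := by
        intro h0
        apply hw' 0
        rw [h0]
        push_cast
        ring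
      have he : ((b : ℂ) * c - a * d) ≠ 0 := by
        intro h0
        rw [h0, zero_mul] at h7
        exact (mul_ne_zero hv0 hw0) h7
      refine ⟨(d : ℂ) * y + c * x, W.add_mem (hsm _ _ hy) (hsm _ _ hx),
        (((b * c - a * d)⁻¹ : QB) : ℂ) * ((d : ℂ) * w + b * x),
        hsm _ _ (W.add_mem (hsm _ _ hw) (hsm _ _ hx)), ?_, hv⟩
      have h8 : ((d : ℂ) * y + c * x) *
          ((((b * c - a * d)⁻¹ : QB) : ℂ) * ((d : ℂ) * w + b * x)) =
          ((b : ℂ) * c - a * d)⁻¹ * (((d : ℂ) * y + c * x) * ((d : ℂ) * w + b * x)) := by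
        push_cast
        ring
      rw [h8, h7, inv_mul_cancel_left₀ he]
  · right; left
    rw [li3_iff] at h3
    push Not at h3
    obtain ⟨a, b, c, h5, h6⟩ := h3
    have hc : c ≠ 0 := by
      rintro rfl
      by_cases hb : b = 0
      · subst hb
        have ha : a ≠ 0 := fun ha => h6 ha rfl rfl
        have ha' : (a : ℂ) ≠ 0 := by exact_mod_cast ha
        push_cast at h5
        rw [zero_mul, zero_mul, add_zero, add_zero] at h5
        exact (mul_ne_zero ha' hx0) h5
      · have hb' : (b : ℂ) ≠ 0 := by exact_mod_cast hb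
        apply h1 (-a / b)
        push_cast at h5 ⊢
        field_simp
        linear_combination h5
    have hc' : (c : ℂ) ≠ 0 := by exact_mod_cast hc
    have hb : b ≠ 0 := by
      rintro rfl
      apply h2 (-a / c)
      push_cast at h5 ⊢
      field_simp
      linear_combination h5
    have hb' : (b : ℂ) ≠ 0 := by exact_mod_cast hb
    -- `c w = - a x - b y`, `x (c z + a y) = - b y ^ 2`
    refine ⟨y, hy, ((-b⁻¹ : QB) : ℂ) * ((c : ℂ) * z + a * y),
      hsm _ _ (W.add_mem (hsm _ _ hz) (hsm _ _ hy)), ?_, h1⟩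
    push_cast
    field_simp
    linear_combination (-(c : ℂ)) * h - y * h5

/-- bound for three coefficients -/
theorem bound3 {N : ℕ} (l : Fin N → ℂ) (hl : LinearIndependent QB l) (ξ : Fin 3 → ℂ)
    (hξ : LinearIndependent QB ξ) (a : Fin 3 → Fin N → ℂ) (ha : ∀ i j, a i j ∈ Lt)
    (h : ∀ j, ∑ i, ξ i * a i j = 0) (i₀ : Fin 3) (h0 : ∀ j, a i₀ j = l j) : N ≤ 6 := by
  refine hyperplane 3 N ξ a hξ ha h ?_
  refine LinearIndependent.of_comp (LinearMap.proj (R := QB) (φ := fun _ : Fin 3 => ℂ) i₀) ?_
  have : (⇑(LinearMap.proj (R := QB) (φ := fun _ : Fin 3 => ℂ) i₀) ∘ fun j i => a i j) = l := by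
    funext j
    exact h0 j
  rw [this]
  exact hl

/-- bound for four coefficients -/
theorem bound4 {N : ℕ} (l : Fin N → ℂ) (hl : LinearIndependent QB l) (hlL : ∀ j, l j ∈ Lt)
    (x y w z : ℂ) (hx : x ∈ Lt) (hy : y ∈ Lt) (hw : w ∈ Lt) (hz : z ∈ Lt)
    (h : x * z = y * w) (hξ : LinearIndependent QB ![x, y, w, z]) (p q r : Fin N → ℂ)
    (hp : ∀ j, p j ∈ Lt) (hq : ∀ j, q j ∈ Lt) (hr : ∀ j, r j ∈ Lt)
    (hk : ∀ j, x * p j + y * q j + w * r j + z * l j = 0) : N + 4 ≤ 12 := by
  classical
  rw [li4_iff] at hξ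
  let T : Fin 4 → Fin 4 → ℂ := ![![y, -x, 0, 0], ![w, 0, -x, 0], ![0, w, -y, 0], ![z, -w, 0, 0]]
  let A : Fin N ⊕ Fin 4 → Fin 4 → ℂ := Sum.elim (fun j => ![p j, q j, r j, l j]) T
  have h1 := hyperplane' (κ := Fin N ⊕ Fin 4) 4 ![x, y, w, z] (fun i j => A j i)
    ((li4_iff _ _ _ _).mpr hξ) ?_ ?_ ?_
  · rw [Fintype.card_sum, Fintype.card_fin, Fintype.card_fin] at h1
    exact h1
  · intro i j
    have hx' := Lt.neg_mem hx
    have hy' := Lt.neg_mem hy
    have hw' := Lt.neg_mem hw
    have h0 := Lt.zero_mem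
    rcases j with j | j
    · fin_cases i
      · exact hp j
      · exact hq j
      · exact hr j
      · exact hlL j
    · fin_cases j <;> fin_cases i <;> simp [A, T, *]
  · intro j
    rcases j with j | j
    · rw [Fin.sum_univ_four]
      exact hk j
    · fin_cases j
      · rw [Fin.sum_univ_four]
        simp [A, T]
        ring
      · rw [Fin.sum_univ_four]
        simp [A, T]
        ring
      · rw [Fin.sum_univ_four]
        simp [A, T]
        ring
      · rw [Fin.sum_univ_four]
        simp [A, T]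
        linear_combination h
  · rw [Fintype.linearIndependent_iff]
    intro g hg
    rw [Fintype.sum_sum_type] at hg
    have hc : ∀ i, ∑ j, g (Sum.inl j) • A (Sum.inl j) i + ∑ j, g (Sum.inr j) • A (Sum.inr j) i
        = 0 := by
      intro i
      have := congrFun hg i
      simpa [Finset.sum_apply] using this
    have h3 := hc 3
    have hg0 : ∀ j, g (Sum.inl j) = 0 := by
      rw [Fin.sum_univ_four] at h3
      simp [A, T] at h3
      exact Fintype.linearIndependent_iff.mp hl _ h3
    have h4 := hc 0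
    have h5 := hc 1
    simp only [hg0, zero_smul, Finset.sum_const_zero, zero_add, Fin.sum_univ_four] at h4 h5
    simp [A, T, Algebra.smul_def] at h4 h5
    have h6 := hξ 0 (g (Sum.inr 0)) (g (Sum.inr 1)) (g (Sum.inr 3)) (by
      push_cast
      linear_combination h4)
    have h7 : g (Sum.inr 2) = 0 := by
      have := hξ (-g (Sum.inr 0)) 0 (g (Sum.inr 2) - g (Sum.inr 3)) 0 (by
        push_cast
        linear_combination h5)
      have h8 := this.2.2.1
      rw [h6.2.2.2, sub_zero] at h8
      exact h8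
    intro j
    rcases j with j | j
    · exact hg0 j
    · fin_cases j
      · exact h6.2.1
      · exact h6.2.2.1
      · exact h7
      · exact h6.2.2.2

end Pool.Agent.TH519.FE
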