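import Pool.Agent.TH519.FE.Dim

/-!
# The dimension of the family of the entries of the rank one matrices
-/

set_option autoImplicit false

namespace Pool.Agent.TH519.FE

open Filter Module Pool.Agent.TH519.GL
open Pool.Agent.H301R2.SSE (QB mem_QB Lt Lt_log)

theorem li_sq {x v u : ℂ} (hx : x ≠ 0) (h : x * u = v * v)
    (hv : ∀ s : QB, v ≠ (s : ℂ) * x) : LinearIndependent QB ![x, v, u] := by
  obtain ⟨t, rfl⟩ : ∃ t, v = t * x := ⟨v / x, (div_mul_cancel₀ _ hx).symm⟩
  have hu : u = t * t * x := by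
    apply mul_left_cancel₀ hx
    rw [h]
    ring
  subst hu
  have ht : t ∉ QB := fun ht => hv ⟨t, ht⟩ rfl
  rw [li3_iff]
  intro α β γ h5
  refine pow3_indep ht α β γ ?_
  have h6 : x * ((α : ℂ) + β * t + γ * (t * t)) = 0 := by
    rw [← h5]
    ring
  exact (mul_eq_zero.1 h6).resolve_left hx

theorem li_prod {x v u : ℂ} (hx : x ≠ 0) (h : x * x = v * u)
    (hv : ∀ s : QB, v ≠ (s : ℂ) * x) : LinearIndependent QB ![x + x, v, u] := by
  obtain ⟨t, rfl⟩ : ∃ t, v = t * x := ⟨v / x, (div_mul_cancel₀ _ hx).symm⟩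
  have hxt : x = t * u := by
    apply mul_left_cancel₀ hx
    rw [h]
    ring
  have ht : t ∉ QB := fun ht => hv ⟨t, ht⟩ rfl
  have hu : u ≠ 0 := by
    rintro rfl
    exact hx (by rw [hxt, mul_zero])
  rw [li3_iff]
  intro α β γ h5
  have h2 : ((2 * α : QB) : ℂ) = 2 * (α : ℂ) := by
    have : (2 * α : QB) = α + α := two_mul α
    rw [this]
    push_cast
    ring
  have h6 : u * ((γ : ℂ) + (2 * α : QB) * t + β * (t * t)) = 0 := by
    rw [← h5, h2]
    linear_combination (-(2 * (α : ℂ)) - (β : ℂ) * t) * hxt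
  obtain ⟨g1, g2, g3⟩ := pow3_indep ht γ (2 * α) β ((mul_eq_zero.1 h6).resolve_left hu)
  exact ⟨(mul_eq_zero.1 g2).resolve_left two_ne_zero, g3, g1⟩

/-- **The family of the entries has dimension at most 8.** -/
theorem ent_dim {M : ℕ} (l' : Fin M → ℂ) (hl : LinearIndependent QB l') (hl' : ∀ j, l' j ∈ Lt)
    (φ : Fin 9 → ((Fin M → QB) →ₗ[QB] QB)) :
    ∃ P : MvPolynomial (Fin 9) QB, P ≠ 0 ∧
      ∀ b, Bad l' b → MvPolynomial.eval (fun i => φ i (fun m => b (0, m))) P = 0 := by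
  classical
  by_contra hcon
  push Not at hcon
  set ι : Type := {b : Fin 4 × Fin M → QB // Bad l' b} with hι
  obtain ⟨𝒰, hgen⟩ := exists_ultra' (ι := ι) (fun b i => φ i (fun m => b.1 (0, m))) (by
    intro P hP
    obtain ⟨b, h1, h2⟩ := hcon P hP
    exact ⟨⟨b, h1⟩, h2⟩)
  obtain ⟨D, g, hg, hD2, hDc, hφ⟩ := exists_system 𝒰 (fun (b : ι) m => b.1 (0, m)) φ hgen
  -- combinations and their derivatives
  set dc : Fin 9 → (ι → Fin M → QB) → ι → ℂ := fun k a b =>
    cmb l' (fun m => g k (fun b => a b m) b) with hdc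
  have hHD : ∀ k (a : ι → Fin M → QB), HD (D k) (fun b => cmb l' (a b)) (dc k a) :=
    fun k a => hDc l' k a
  set X : ι → Fin M → QB := fun b m => b.1 (0, m) with hX
  set Y : ι → Fin M → QB := fun b m => b.1 (1, m) with hY
  set V : ι → Fin M → QB := fun b m => b.1 (2, m) with hV
  set Z : ι → Fin M → QB := fun b m => b.1 (3, m) with hZ
  have hLt : ∀ k a b, dc k a b ∈ Lt := fun k a b => cmb_mem_Lt' hl' _
  have heLt : ∀ a, cmb l' a ∈ Lt := fun a => cmb_mem_Lt' hl' _
  have hquad : ∀ x y w z : ι → Fin M → QB,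
      (∀ᶠ b in (𝒰 : Filter ι), cmb l' (x b) * cmb l' (z b) = cmb l' (y b) * cmb l' (w b)) →
      ∀ᶠ b in (𝒰 : Filter ι), ∀ k, cmb l' (x b) * dc k z b + cmb l' (z b) * dc k x b =
        cmb l' (y b) * dc k w b + cmb l' (w b) * dc k y b := by
    intro x y w z h
    rw [Filter.eventually_all]
    intro k
    exact HD.congr ((hHD k x).mul (hHD k z)) ((hHD k y).mul (hHD k w)) h
  -- independence
  have hindep : ∀ᶠ b in (𝒰 : Filter ι), LinearIndependent QB (fun k => dc k X b) := by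
    refine hφ.mono fun b hb => ?_
    rw [Fintype.linearIndependent_iff]
    intro p hp i
    have h1 : cmb l' (fun m => ∑ k, p k * g k (fun b => X b m) b) = 0 := by
      rw [← cmb_sum, ← hp]
      refine Finset.sum_congr rfl fun k _ => ?_
      rw [Algebra.smul_def]
      rfl
    have h2 := cmb_eq_zero hl h1
    have h3 := eq_zero_of_dual φ (fun k j => g k (fun b => X b j) b) hb p
      (fun j => congrFun h2 j)
    rw [h3]
    rfl
  have hmem : ∀ z, z ∈ Submodule.span QB (Set.range l') ↔ ∃ a, cmb l' a = z := by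
    intro z
    rw [Submodule.mem_span_range_iff_exists_fun]
    refine exists_congr fun a => ?_
    rw [cmb]
    simp only [Algebra.smul_def]
  have hW : ∀ a, cmb l' a ∈ Submodule.span QB (Set.range l') := fun a => (hmem _).2 ⟨a, rfl⟩
  have hall : ∀ᶠ b in (𝒰 : Filter ι),
      (LinearIndependent QB ![cmb l' (X b), cmb l' (Y b), cmb l' (V b), cmb l' (Z b)]) ∨
      ((∃ v u : Fin M → QB, cmb l' (X b) * cmb l' u = cmb l' v * cmb l' v ∧
        ∀ s : QB, cmb l' v ≠ (s : ℂ) * cmb l' (X b)) ∨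
      ∃ v u : Fin M → QB, cmb l' (X b) * cmb l' (X b) = cmb l' v * cmb l' u ∧
        ∀ s : QB, cmb l' v ≠ (s : ℂ) * cmb l' (X b)) := by
    refine Filter.Eventually.of_forall fun b => ?_
    obtain ⟨q1, q2, q3, q4⟩ := b.2
    rcases classify _ _ _ _ _ q1 (hW _) (hW _) (hW _) (hW _) q2 q3 q4 with
      h5 | ⟨v, hv, u, hu, h5, h6⟩ | ⟨v, hv, u, hu, h5, h6⟩
    · exact Or.inl h5
    · obtain ⟨v', rfl⟩ := (hmem _).1 hv
      obtain ⟨u', rfl⟩ := (hmem _).1 hu
      exact Or.inr (Or.inl ⟨v', u', h5, h6⟩)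
    · obtain ⟨v', rfl⟩ := (hmem _).1 hv
      obtain ⟨u', rfl⟩ := (hmem _).1 hu
      exact Or.inr (Or.inr ⟨v', u', h5, h6⟩)
  have hX0 : ∀ b : ι, cmb l' (X b) ≠ 0 := fun b => b.2.1
  rcases Ultrafilter.eventually_or.1 hall with h | h
  · -- linearly independent entries
    have h1 := hquad X Y V Z (Filter.Eventually.of_forall fun b => b.2.2.1)
    obtain ⟨b, hb, hb1, hb2⟩ := (h.and (h1.and hindep)).exists
    have := bound4 (fun k => dc k X b) hb2 (fun k => hLt k X b) (cmb l' (X b)) (cmb l' (Y b))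
      (cmb l' (V b)) (cmb l' (Z b)) (heLt _) (heLt _) (heLt _) (heLt _) b.2.2.1 hb
      (fun k => dc k Z b) (fun k => -dc k V b) (fun k => -dc k Y b) (fun k => hLt _ _ _)
      (fun k => Lt.neg_mem (hLt _ _ _)) (fun k => Lt.neg_mem (hLt _ _ _)) (by
        intro k
        linear_combination hb1 k)
    omega
  rcases Ultrafilter.eventually_or.1 h with h | h
  · have hex : ∀ b : ι, (∃ v u : Fin M → QB, cmb l' (X b) * cmb l' u = cmb l' v * cmb l' v ∧
        ∀ s : QB, cmb l' v ≠ (s : ℂ) * cmb l' (X b)) →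
      ∃ v u : Fin M → QB, cmb l' (X b) * cmb l' u = cmb l' v * cmb l' v ∧
        ∀ s : QB, cmb l' v ≠ (s : ℂ) * cmb l' (X b) := fun b hb => hb
    choose! v u hvu using hex
    have h1 := hquad X v v u (h.mono fun b hb => (hvu b hb).1)
    obtain ⟨b, hb, hb1, hb2⟩ := (h.and (h1.and hindep)).exists
    obtain ⟨r1, r2⟩ := hvu b hb
    have := bound3 (fun k => dc k X b) hb2 ![cmb l' (X b), cmb l' (v b), cmb l' (u b)]
      (li_sq (hX0 b) r1 r2)
      (fun i k => (![dc k u b, -(dc k v b + dc k v b), dc k X b] : Fin 3 → ℂ) i) (by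
        intro i k
        fin_cases i
        · exact hLt _ _ _
        · exact Lt.neg_mem (Lt.add_mem (hLt _ _ _) (hLt _ _ _))
        · exact hLt _ _ _) (by
        intro k
        rw [Fin.sum_univ_three]
        simp only [Matrix.cons_val_zero, Matrix.cons_val_one, Matrix.cons_val_two,
          Matrix.head_cons, Matrix.tail_cons]
        linear_combination hb1 k) 2 (fun k => rfl)
    omega
  · have hex : ∀ b : ι, (∃ v u : Fin M → QB, cmb l' (X b) * cmb l' (X b) = cmb l' v * cmb l' u ∧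
        ∀ s : QB, cmb l' v ≠ (s : ℂ) * cmb l' (X b)) →
      ∃ v u : Fin M → QB, cmb l' (X b) * cmb l' (X b) = cmb l' v * cmb l' u ∧
        ∀ s : QB, cmb l' v ≠ (s : ℂ) * cmb l' (X b) := fun b hb => hb
    choose! v u hvu using hex
    have h1 := hquad X v u X (h.mono fun b hb => (hvu b hb).1)
    obtain ⟨b, hb, hb1, hb2⟩ := (h.and (h1.and hindep)).exists
    obtain ⟨r1, r2⟩ := hvu b hb
    have := bound3 (fun k => dc k X b) hb2 ![cmb l' (X b) + cmb l' (X b), cmb l' (v b),
      cmb l' (u b)] (li_prod (hX0 b) r1 r2)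
      (fun i k => (![dc k X b, -dc k u b, -dc k v b] : Fin 3 → ℂ) i) (by
        intro i k
        fin_cases i
        · exact hLt _ _ _
        · exact Lt.neg_mem (hLt _ _ _)
        · exact Lt.neg_mem (hLt _ _ _)) (by
        intro k
        rw [Fin.sum_univ_three]
        simp only [Matrix.cons_val_zero, Matrix.cons_val_one, Matrix.cons_val_two,
          Matrix.head_cons, Matrix.tail_cons]
        linear_combination hb1 k) 0 (fun k => rfl)
    omega

end Pool.Agent.TH519.FE
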