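import Pool.Agent.TH519.FE.Ent

/-!
# The family of the singular matrices of linear forms in logarithms
-/

set_option autoImplicit false

namespace Pool.Agent.TH519.FE

open Module Pool.Agent.TH519.GL
open Pool.Agent.H301R2.SSE (QB mem_QB Lt Lt_log)

/-- singular with independent rows and columns -/
def Ctr (x y w z : ℂ) : Prop :=
  x * z = y * w ∧
  (∀ s t : QB, (s : ℂ) * x + t * w = 0 → (s : ℂ) * y + t * z = 0 → s = 0 ∧ t = 0) ∧
  ∀ s t : QB, (s : ℂ) * x + t * y = 0 → (s : ℂ) * w + t * z = 0 → s = 0 ∧ t = 0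

theorem Ctr.swapc {x y w z : ℂ} (h : Ctr x y w z) : Ctr y x z w := by
  obtain ⟨h1, h2, h3⟩ := h
  refine ⟨h1.symm, fun s t a b => h2 s t b a, fun s t a b => ?_⟩
  obtain ⟨h4, h5⟩ := h3 t s (by rw [add_comm]; exact a) (by rw [add_comm]; exact b)
  exact ⟨h5, h4⟩

theorem Ctr.swapr {x y w z : ℂ} (h : Ctr x y w z) : Ctr w z x y := by
  obtain ⟨h1, h2, h3⟩ := h
  refine ⟨by rw [mul_comm w y, mul_comm z x]; exact h1.symm, fun s t a b => ?_,
    fun s t a b => h3 s t b a⟩
  obtain ⟨h4, h5⟩ := h2 t s (by rw [add_comm]; exact a) (by rw [add_comm]; exact b)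
  exact ⟨h5, h4⟩

theorem Ctr.bad {x y w z : ℂ} (h : Ctr x y w z) :
    x ≠ 0 ∧ x * z = y * w ∧ (∀ s : QB, y ≠ (s : ℂ) * x) ∧ ∀ s : QB, w ≠ (s : ℂ) * x := by
  obtain ⟨h1, h2, h3⟩ := h
  have hx : x ≠ 0 := by
    rintro rfl
    rw [zero_mul] at h1
    rcases mul_eq_zero.1 h1.symm with h4 | h4
    · have := h2 1 0 (by push_cast; ring) (by rw [h4]; push_cast; ring)
      exact one_ne_zero this.1
    · have := h3 1 0 (by push_cast; ring) (by rw [h4]; push_cast; ring)
      exact one_ne_zero this.1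
  refine ⟨hx, h1, ?_, ?_⟩
  · intro s hs
    have hz : z = (s : ℂ) * w := by
      apply mul_left_cancel₀ hx
      rw [h1, hs]
      ring
    have := h3 s (-1) (by push_cast; rw [hs]; ring) (by push_cast; rw [hz]; ring)
    exact one_ne_zero (neg_eq_zero.1 this.2)
  · intro s hs
    have hz : z = (s : ℂ) * y := by
      apply mul_left_cancel₀ hx
      rw [h1, hs]
      ring
    have := h2 s (-1) (by push_cast; rw [hs]; ring) (by push_cast; rw [hz]; ring)
    exact one_ne_zero (neg_eq_zero.1 this.2)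

theorem ctr_of_li {W : Submodule QB ℂ} (M : Matrix (Fin 2) (Fin 2) W)
    (h1 : (M 0 0 : ℂ) * M 1 1 = M 0 1 * M 1 0)
    (h2 : LinearIndependent QB (fun i j => (M i j : ℂ)))
    (h3 : LinearIndependent QB (fun j i => (M i j : ℂ))) :
    Ctr (M 0 0) (M 0 1) (M 1 0) (M 1 1) := by
  rw [Fintype.linearIndependent_iff] at h2 h3
  refine ⟨h1, fun s t a b => ?_, fun s t a b => ?_⟩
  · have h4 := h2 ![s, t] (by
      funext j
      rw [Fin.sum_univ_two]
      change s • (M 0 j : ℂ) + t • (M 1 j : ℂ) = 0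
      rw [Algebra.smul_def, Algebra.smul_def]
      rcases Fin.exists_fin_two.1 ⟨j, rfl⟩ with h | h
      · rw [h]; exact a
      · rw [h]; exact b)
    exact ⟨h4 0, h4 1⟩
  · have h4 := h3 ![s, t] (by
      funext j
      rw [Fin.sum_univ_two]
      change s • (M j 0 : ℂ) + t • (M j 1 : ℂ) = 0
      rw [Algebra.smul_def, Algebra.smul_def]
      rcases Fin.exists_fin_two.1 ⟨j, rfl⟩ with h | h
      · rw [h]; exact a
      · rw [h]; exact b)
    exact ⟨h4 0, h4 1⟩

section

variable {K : Type} [Field K] {W : Type} [AddCommGroup W] [Module K W] [FiniteDimensional K W]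

/-- coordinates of quadruples -/
noncomputable def crd (v : Fin 4 → W) : Fin 4 × Fin (finrank K W) → K :=
  fun p => (Module.finBasis K W).repr (v p.1) p.2

/-- the quadruple with given coordinates -/
noncomputable def ofCrd : (Fin 4 × Fin (finrank K W) → K) →ₗ[K] (Fin 4 → W) where
  toFun b s := ∑ m, b (s, m) • Module.finBasis K W m
  map_add' b b' := by
    funext s
    simp only [Pi.add_apply, add_smul, Finset.sum_add_distrib]
  map_smul' c b := by
    funext s
    simp only [Pi.smul_apply, smul_eq_mul, mul_smul, Finset.smul_sum, RingHom.id_apply]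

theorem ofCrd_crd (v : Fin 4 → W) : ofCrd (K := K) (crd (K := K) v) = v := by
  funext s
  exact (Module.finBasis K W).sum_repr (v s)

/-- the vector with given coordinates -/
noncomputable def ofCrd1 : (Fin (finrank K W) → K) →ₗ[K] W where
  toFun b := ∑ m, b m • Module.finBasis K W m
  map_add' b b' := by
    simp only [Pi.add_apply, add_smul, Finset.sum_add_distrib]
  map_smul' c b := by
    simp only [Pi.smul_apply, smul_eq_mul, mul_smul, Finset.smul_sum, RingHom.id_apply]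

/-- matrices from quadruples -/
noncomputable def toMat : (Fin 4 → W) →ₗ[K] Matrix (Fin 2) (Fin 2) W where
  toFun v := fun i j => v (finProdFinEquiv (i, j))
  map_add' _ _ := rfl
  map_smul' _ _ := rfl

end

variable (W : Submodule QB ℂ) [FiniteDimensional QB W]

/-- the basis -/
noncomputable def bs : Fin (finrank QB W) → ℂ := fun m => ((Module.finBasis QB W m : W) : ℂ)

theorem bs_li : LinearIndependent QB (bs W) :=
  (Module.finBasis QB W).linearIndependent.map' W.subtype (Submodule.ker_subtype _)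

theorem ent_crd (v : Fin 4 → W) (s : Fin 4) : ent (bs W) (crd (K := QB) v) s = v s := by
  have h1 := congrArg (fun y : W => (y : ℂ)) ((Module.finBasis QB W).sum_repr (v s))
  simp only [Submodule.coe_sum, Submodule.coe_smul] at h1
  rw [ent, cmb]
  refine Eq.trans ?_ h1
  refine Finset.sum_congr rfl fun j _ => ?_
  rw [Algebra.smul_def]
  rfl

theorem bad_crd (x y w z : W) (h : Ctr x y w z) : Bad (bs W) (crd (K := QB) ![x, y, w, z]) := by
  have e0 : ent (bs W) (crd (K := QB) ![x, y, w, z]) 0 = x := ent_crd W _ 0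
  have e1 : ent (bs W) (crd (K := QB) ![x, y, w, z]) 1 = y := ent_crd W _ 1
  have e2 : ent (bs W) (crd (K := QB) ![x, y, w, z]) 2 = w := ent_crd W _ 2
  have e3 : ent (bs W) (crd (K := QB) ![x, y, w, z]) 3 = z := ent_crd W _ 3
  unfold Bad
  rw [e0, e1, e2, e3]
  exact h.bad

theorem mat_final (hW : W ≤ Lt) (φ : Fin 13 → (Matrix (Fin 2) (Fin 2) W →ₗ[QB] QB)) :
    ∃ P : MvPolynomial (Fin 13) QB, P ≠ 0 ∧ ∀ M : Matrix (Fin 2) (Fin 2) W,
      Ctr (M 0 0) (M 0 1) (M 1 0) (M 1 1) → MvPolynomial.eval (fun i => φ i M) P = 0 := by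
  obtain ⟨P, h1, h2⟩ := mat_dim (bs W) (bs_li W)
    (fun j => hW (Module.finBasis QB W j).2)
    (fun i => (φ i ∘ₗ toMat) ∘ₗ ofCrd)
  refine ⟨P, h1, fun M hM => ?_⟩
  have h3 := h2 _ (bad_crd W _ _ _ _ hM)
  have h4 : toMat (K := QB) (ofCrd (K := QB) (crd (K := QB) ![M 0 0, M 0 1, M 1 0, M 1 1])) = M := by
    rw [ofCrd_crd]
    funext i j
    fin_cases i <;> fin_cases j <;> rfl
  simp only [LinearMap.comp_apply, h4] at h3
  exact h3

theorem ent_final0 (hW : W ≤ Lt) (φ : Fin 9 → (W →ₗ[QB] QB)) :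
    ∃ P : MvPolynomial (Fin 9) QB, P ≠ 0 ∧ ∀ x y w z : W,
      Ctr x y w z → MvPolynomial.eval (fun i => φ i x) P = 0 := by
  obtain ⟨P, h1, h2⟩ := ent_dim (bs W) (bs_li W)
    (fun j => hW (Module.finBasis QB W j).2) (fun i => φ i ∘ₗ ofCrd1)
  refine ⟨P, h1, fun x y w z hM => ?_⟩
  have h3 := h2 _ (bad_crd W _ _ _ _ hM)
  have h4 : ofCrd1 (K := QB) (fun m => crd (K := QB) ![x, y, w, z] (0, m)) = x :=
    (Module.finBasis QB W).sum_repr x
  simp only [LinearMap.comp_apply, h4] at h3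
  exact h3

theorem ent_final (hW : W ≤ Lt) (φ : Fin 9 → (W →ₗ[QB] QB)) :
    ∃ P : MvPolynomial (Fin 9) QB, P ≠ 0 ∧ ∀ M : Matrix (Fin 2) (Fin 2) W,
      Ctr (M 0 0) (M 0 1) (M 1 0) (M 1 1) → ∀ i j,
        MvPolynomial.eval (fun k => φ k (M i j)) P = 0 := by
  obtain ⟨P, h1, h2⟩ := ent_final0 W hW φ
  refine ⟨P, h1, fun M hM i j => ?_⟩
  fin_cases i <;> fin_cases j
  · exact h2 _ _ _ _ hM
  · exact h2 _ _ _ _ hM.swapc
  · exact h2 _ _ _ _ hM.swapr
  · exact h2 _ _ _ _ hM.swapr.swapc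

end Pool.Agent.TH519.FE
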